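import Pool.Agent.R920.WC.Poly

/-!
# Chip-firing along monomial relations, with several sinks or none
-/

set_option autoImplicit false

namespace Pool.Agent.K3h16.FU

variable {ι : Type*} [DecidableEq ι]

/-- weights along which the relations increase, several sinks -/
theorem exists_weights {ℓ : ι → ℕ} {I Z : Finset ι} (hZ : Z ⊆ I) {M : ι → ι → ℕ}
    (hmin : ∀ U ⊆ I \ Z, U.Nonempty → ∃ i ∈ U, ∃ k ∈ I, k ∉ U ∧ M i k ≠ 0) :
    ∃ W : ι → ℕ, ∀ i ∈ I \ Z, ∃ k ∈ I, M i k ≠ 0 ∧ k ≠ i ∧ ℓ i * W i < W k := by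
  classical
  let P : Finset ι → Prop := fun U => U ⊆ I ∧ Z ⊆ U ∧ ∃ W : ι → ℕ, (∀ i, 0 < W i) ∧
    ∀ i ∈ U, i ∉ Z → ∃ k ∈ U, M i k ≠ 0 ∧ k ≠ i ∧ ℓ i * W i < W k
  have h0 : P Z := ⟨hZ, Finset.Subset.refl _, fun _ => 1, fun _ => one_pos,
    fun i hi hne => absurd hi hne⟩
  obtain ⟨U, hU, hmax⟩ : ∃ U, P U ∧ ∀ U', P U' → U'.card ≤ U.card := by
    have hfin : {n | ∃ U, P U ∧ U.card = n}.Finite := by
      refine Set.Finite.subset (Set.finite_le_nat I.card) ?_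
      rintro n ⟨U, hU, rfl⟩
      exact Finset.card_le_card hU.1
    obtain ⟨n, ⟨U, hU, rfl⟩, hn⟩ := hfin.exists_maximal ⟨_, Z, h0, rfl⟩
    refine ⟨U, hU, fun U' hU' => ?_⟩
    by_contra hlt
    push Not at hlt
    have := hn ⟨U', hU', rfl⟩ hlt.le
    omega
  obtain ⟨hUI, hZU, W, hW, hprop⟩ := hU
  by_cases hUeq : U = I
  · subst hUeq
    exact ⟨W, fun i hi => hprop i (Finset.mem_sdiff.1 hi).1 (Finset.mem_sdiff.1 hi).2⟩
  · exfalso
    have hne : (I \ U).Nonempty := by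
      rw [Finset.sdiff_nonempty]
      intro h
      exact hUeq (Finset.Subset.antisymm hUI h)
    obtain ⟨i, hi, k, hk, hkU, hM⟩ := hmin (I \ U)
      (Finset.sdiff_subset_sdiff (Finset.Subset.refl _) hZU) hne
    have hiI := (Finset.mem_sdiff.1 hi).1
    have hiU' := (Finset.mem_sdiff.1 hi).2
    have hkU' : k ∈ U := by
      by_contra h
      exact hkU (Finset.mem_sdiff.2 ⟨hk, h⟩)
    have hP : P (insert i U) := by
      refine ⟨Finset.insert_subset hiI hUI, hZU.trans (Finset.subset_insert _ _),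
        fun x => if x = i then 1 else (ℓ i + 1) * W x, ?_, ?_⟩
      · intro x
        by_cases hx : x = i
        · simp [hx]
        · simp only [hx, if_false]
          exact Nat.mul_pos (Nat.succ_pos _) (hW x)
      · intro x hx hx0
        by_cases hxi : x = i
        · subst hxi
          have hkx : k ≠ x := fun h => hiU' (h ▸ hkU')
          refine ⟨k, Finset.mem_insert_of_mem hkU', hM, hkx, ?_⟩
          simp only [hkx, if_false, if_true, mul_one]
          have := hW k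
          nlinarith
        · have hxU : x ∈ U := (Finset.mem_insert.1 hx).resolve_left hxi
          obtain ⟨k', hk', hM', hne'', hlt⟩ := hprop x hxU hx0
          have hk'i : k' ≠ i := fun h => hiU' (h ▸ hk')
          refine ⟨k', Finset.mem_insert_of_mem hk', hM', hne'', ?_⟩
          simp only [hxi, hk'i, if_false]
          calc ℓ x * ((ℓ i + 1) * W x) = (ℓ i + 1) * (ℓ x * W x) := by ring
            _ < (ℓ i + 1) * W k' := (Nat.mul_lt_mul_left (Nat.succ_pos _)).2 hlt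
    have := hmax _ hP
    rw [Finset.card_insert_of_notMem hiU'] at this
    omega

/-- every combination can be reduced modulo the relations, keeping its value in a group -/
theorem exists_reduced {G : Type*} [CommGroup G] (r : ι → G) {a ℓ : ι → ℕ} {I Z : Finset ι}
    (hZ : Z ⊆ I) (ha : ∀ i ∈ I, 0 < a i) {M : ι → ι → ℕ}
    (hM : ∀ i ∈ I, ∑ k ∈ I, M i k * a k = ℓ i * a i)
    (hr : ∀ i ∈ I \ Z, ∏ k ∈ I, r k ^ M i k = r i ^ ℓ i)
    (hmin : ∀ U ⊆ I \ Z, U.Nonempty → ∃ i ∈ U, ∃ k ∈ I, k ∉ U ∧ M i k ≠ 0)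
    (m₀ : ι → ℕ) :
    ∃ m : ι → ℕ, ∑ k ∈ I, m k * a k = ∑ k ∈ I, m₀ k * a k ∧
      ∏ k ∈ I, r k ^ m k = ∏ k ∈ I, r k ^ m₀ k ∧ ∀ i ∈ I \ Z, m i < ℓ i := by
  classical
  obtain ⟨W, hW⟩ := exists_weights (ℓ := ℓ) hZ hmin
  set s := ∑ k ∈ I, m₀ k * a k with hs
  set p := ∏ k ∈ I, r k ^ m₀ k with hp
  -- bounded potential
  have hbd : ∀ m : ι → ℕ, ∑ k ∈ I, m k * a k = s → ∑ k ∈ I, m k * W k ≤ ∑ k ∈ I, s * W k := by
    intro m hm
    refine Finset.sum_le_sum fun k hk => Nat.mul_le_mul_right _ ?_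
    calc m k ≤ m k * a k := Nat.le_mul_of_pos_right _ (ha k hk)
      _ ≤ ∑ k ∈ I, m k * a k := Finset.single_le_sum (f := fun k => m k * a k)
          (fun _ _ => Nat.zero_le _) hk
      _ = s := hm
  have hfin : {n | ∃ m : ι → ℕ, (∑ k ∈ I, m k * a k = s ∧ ∏ k ∈ I, r k ^ m k = p) ∧
      ∑ k ∈ I, m k * W k = n}.Finite := by
    refine Set.Finite.subset (Set.finite_le_nat (∑ k ∈ I, s * W k)) ?_
    rintro n ⟨m, hm, rfl⟩
    exact hbd m hm.1
  obtain ⟨n, ⟨m, ⟨hm, hmp⟩, hmn⟩, hn⟩ := hfin.exists_maximal ⟨_, m₀, ⟨hs.symm, hp.symm⟩, rfl⟩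
  refine ⟨m, hm, hmp, fun i hi' => ?_⟩
  have hi := (Finset.mem_sdiff.1 hi').1
  by_contra hlt
  push Not at hlt
  obtain ⟨k, hk, hMk, hki, hWk⟩ := hW i hi'
  -- the new representation
  set m' : ι → ℕ := fun x => (if x = i then m x - ℓ i else m x) + M i x with hm'
  have e1 : ∀ g : ι → ℕ, ∑ x ∈ I, (if x = i then m x - ℓ i else m x) * g x + ℓ i * g i =
      ∑ x ∈ I, m x * g x := by
    intro g
    rw [← Finset.add_sum_erase _ _ hi,
      ← Finset.add_sum_erase (a := i) (f := fun x => m x * g x) _ hi]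
    have h1 : ∑ x ∈ I.erase i, (if x = i then m x - ℓ i else m x) * g x =
        ∑ x ∈ I.erase i, m x * g x := by
      refine Finset.sum_congr rfl fun x hx => ?_
      rw [if_neg (Finset.ne_of_mem_erase hx)]
    rw [h1, if_pos rfl]
    have h2 : (m i - ℓ i) * g i + ℓ i * g i = m i * g i := by
      rw [← add_mul, Nat.sub_add_cancel hlt]
    omega
  have e2 : ∀ g : ι → ℕ, ∑ x ∈ I, m' x * g x + ℓ i * g i =
      ∑ x ∈ I, m x * g x + ∑ x ∈ I, M i x * g x := by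
    intro g
    rw [← e1 g]
    simp only [hm', add_mul, Finset.sum_add_distrib]
    ring
  have h3 : ∑ x ∈ I, m' x * a x = s := by
    have := e2 a
    rw [hM i hi, hm] at this
    omega
  have h3' : ∏ x ∈ I, r x ^ m' x = p := by
    have h5 : (∏ x ∈ I, r x ^ (if x = i then m x - ℓ i else m x)) * r i ^ ℓ i =
        ∏ x ∈ I, r x ^ m x := by
      rw [← Finset.mul_prod_erase _ _ hi,
        ← Finset.mul_prod_erase (a := i) (f := fun x => r x ^ m x) _ hi]
      have h6 : ∏ x ∈ I.erase i, r x ^ (if x = i then m x - ℓ i else m x) =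
          ∏ x ∈ I.erase i, r x ^ m x := by
        refine Finset.prod_congr rfl fun x hx => ?_
        rw [if_neg (Finset.ne_of_mem_erase hx)]
      rw [h6, if_pos rfl]
      have h7 : r i ^ (m i - ℓ i) * r i ^ ℓ i = r i ^ m i := by
        rw [← pow_add, Nat.sub_add_cancel hlt]
      rw [← h7]
      rw [mul_right_comm]
    simp only [hm', pow_add, Finset.prod_mul_distrib]
    rw [hr i hi', h5, hmp]
  have h4 : ∑ x ∈ I, m x * W x < ∑ x ∈ I, m' x * W x := by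
    have := e2 W
    have h5 : M i k * W k ≤ ∑ x ∈ I, M i x * W x := Finset.single_le_sum
      (f := fun x => M i x * W x) (fun _ _ => Nat.zero_le _) hk
    have h6 : W k ≤ M i k * W k := Nat.le_mul_of_pos_left _ (Nat.pos_of_ne_zero hMk)
    omega
  have h7 := hn ⟨m', ⟨h3, h3'⟩, rfl⟩ (by rw [← hmn]; exact h4.le)
  omega

/-- the game without a sink: if the degree is so large that some firing is always legal, then
there is a closed set of indices which can fire in some combination of degree `e` -/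
theorem exists_closed {a ℓ : ι → ℕ} {I : Finset ι} (ha : ∀ i ∈ I, 0 < a i) {M : ι → ι → ℕ}
    (hM : ∀ i ∈ I, ∑ k ∈ I, M i k * a k = ℓ i * a i)
    {e : ℕ} (hbig : ∑ i ∈ I, (ℓ i - 1) * a i < e) {m₀ : ι → ℕ}
    (hm₀ : ∑ k ∈ I, m₀ k * a k = e) :
    ∃ C ⊆ I, C.Nonempty ∧ (∀ i ∈ C, ∀ k ∈ I, k ∉ C → M i k = 0) ∧
      ∀ i ∈ C, ∃ m : ι → ℕ, ∑ k ∈ I, m k * a k = e ∧ ℓ i ≤ m i := by
  classical
  by_contra hcon
  push Not at hcon
  set Z : Finset ι := I.filter fun i => ∀ m : ι → ℕ, ∑ k ∈ I, m k * a k = e → m i < ℓ i with hZ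
  have hmin : ∀ U ⊆ I \ Z, U.Nonempty → ∃ i ∈ U, ∃ k ∈ I, k ∉ U ∧ M i k ≠ 0 := by
    intro U hU hne
    by_contra hno
    push Not at hno
    obtain ⟨i, hi, h1⟩ := hcon U (hU.trans Finset.sdiff_subset) hne
      (fun i hi k hk hkU => hno i hi k hk hkU)
    refine (Finset.mem_sdiff.1 (hU hi)).2 (Finset.mem_filter.2 ⟨(Finset.mem_sdiff.1 (hU hi)).1,
      fun m hm => h1 m hm⟩)
  obtain ⟨m, hm, -, hlt⟩ := exists_reduced (G := Multiplicative ℤ) (fun _ => 1)
    (Finset.filter_subset _ I) ha hM (fun i _ => by simp) hmin m₀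
  have hall : ∀ i ∈ I, m i < ℓ i := by
    intro i hi
    by_cases h : i ∈ Z
    · exact (Finset.mem_filter.1 h).2 m (hm.trans hm₀)
    · exact hlt i (Finset.mem_sdiff.2 ⟨hi, h⟩)
  have h1 : e ≤ ∑ i ∈ I, (ℓ i - 1) * a i := by
    rw [← hm₀, ← hm]
    refine Finset.sum_le_sum fun i hi => Nat.mul_le_mul_right _ ?_
    have := hall i hi
    omega
  omega

/-- a minimal closed subset of a closed set -/
theorem exists_min_closed {M : ι → ι → ℕ} {C₀ : Finset ι} (hne : C₀.Nonempty)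
    (hcl : ∀ i ∈ C₀, ∀ k, k ∉ C₀ → M i k = 0) :
    ∃ C ⊆ C₀, C.Nonempty ∧ (∀ i ∈ C, ∀ k, k ∉ C → M i k = 0) ∧
      ∀ U ⊆ C, U.Nonempty → U ≠ C → ∃ i ∈ U, ∃ k ∈ C, k ∉ U ∧ M i k ≠ 0 := by
  classical
  induction C₀ using Finset.strongInduction with
  | H C₀ ih =>
    by_cases h : ∀ U ⊆ C₀, U.Nonempty → U ≠ C₀ → ∃ i ∈ U, ∃ k ∈ C₀, k ∉ U ∧ M i k ≠ 0
    · exact ⟨C₀, Finset.Subset.refl _, hne, hcl, h⟩
    · push Not at h
      obtain ⟨U, hU, hUne, hneq, hU'⟩ := h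
      obtain ⟨C, hC, h1, h2, h3⟩ := ih U (Finset.ssubset_iff_subset_ne.2 ⟨hU, hneq⟩) hUne
        (fun i hi k hk => by
          by_cases hk' : k ∈ C₀
          · exact hU' i hi k hk' hk
          · exact hcl i (hU hi) k hk')
      exact ⟨C, hC.trans hU, h1, h2, h3⟩

end Pool.Agent.K3h16.FU
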