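import Pool.Agent.K3h16.FU.Rank
import Pool.Agent.H61.Fu.Final

/-!
# The values of the sections determine the point, arbitrary codimension
-/

set_option autoImplicit false

namespace Pool.Agent.K3h16.FU

open MvPolynomial Pool.Agent.H39R2.Fuj Pool.Agent.H61.Fu

variable {N : ℕ} {κ : Type*}

/-- a weighted complete intersection with pairwise coprime weights, one pure power of each variable
of weight at least two in an equation, and a degree `e` larger than the sum of
`(L i - 1) * a i` -/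
structure SysG (a : Fin N → ℕ) (d : κ → ℕ) (e : ℕ) (f : κ → MvPolynomial (Fin N) ℂ)
    (J : Fin N → κ) (L : Fin N → ℕ) : Prop where
  ha : ∀ i, 0 < a i
  hcop : ∀ i k, i ≠ k → Nat.Coprime (a i) (a k)
  hd : ∀ j, 0 < d j
  hf : ∀ j, IsWeightedHomogeneous a (f j) (d j)
  hJ : ∀ i, 1 < a i → L i * a i = d (J i) ∧ coeff (Finsupp.single i (L i)) (f (J i)) ≠ 0
  hE : ∑ i, (L i - 1) * a i < e

/-- the values of the sections at a point `y` with values in `B` are those at `v` -/
structure RelG {B : Type*} [CommRing B] [Algebra ℂ B] (a : Fin N → ℕ) (e : ℕ)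
    (f : κ → MvPolynomial (Fin N) ℂ) (v : Fin N → ℂ) (y : Fin N → B) : Prop where
  hs : ∀ s, IsWeightedHomogeneous a s e → aeval y s = algebraMap ℂ B (eval v s)
  hfv : ∀ j, eval v (f j) = 0
  hfy : ∀ j, aeval y (f j) = 0

variable {B : Type*} [CommRing B] [Algebra ℂ B]
  {a : Fin N → ℕ} {d : κ → ℕ} {e : ℕ} {f : κ → MvPolynomial (Fin N) ℂ}
  {J : Fin N → κ} {L : Fin N → ℕ} {v : Fin N → ℂ} {y : Fin N → B}

/-- linear coordinates -/
theorem finishG (S : SysG a d e f J L) (H : RelG a e f v y) (T : B)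
    (h : ∀ l, y l = T ^ a l * algebraMap ℂ B (v l) ∨ (1 < a l ∧ d (J l) = a l)) :
    ∀ l, y l = T ^ a l * algebraMap ℂ B (v l) := by
  have key : ∀ n, ∀ l, a l = n → y l = T ^ a l * algebraMap ℂ B (v l) := by
    intro n
    induction n using Nat.strong_induction_on with
    | _ n ih =>
      intro l hl
      rcases h l with h1 | ⟨h1, h2⟩
      · exact h1
      · obtain ⟨h3, h4⟩ := S.hJ l h1
        have h5 : L l = 1 := by
          have : L l * a l = 1 * a l := by rw [h3, h2, one_mul]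
          exact Nat.eq_of_mul_eq_mul_right (S.ha l) this
        rw [h5] at h3 h4
        have h6 := comp (f (J l)) v y (H.hfv _) (H.hfy _) _ h4 (T ^ a l) (by
          intro m hm hne
          have hw := S.hf (J l) (mem_support_iff.1 hm)
          have hml : m l < 1 := lt_of_ne_single S.ha hw h3 hne
          rw [Pool.Agent.R920.WC.weight_eq, h2] at hw
          have h7 : ∀ i, m i ≠ 0 → a i < a l := by
            intro i hi
            have hle : m i * a i ≤ a l := by
              rw [← hw]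
              exact Finset.single_le_sum (f := fun x => m x * a x)
                (fun x _ => Nat.zero_le _) (Finset.mem_univ i)
            have h8 : 1 * a i ≤ m i * a i := Nat.mul_le_mul_right _ (Nat.one_le_iff_ne_zero.2 hi)
            rcases Nat.lt_or_ge (a i) (a l) with h9 | h9
            · exact h9
            · exfalso
              have h10 : a i = a l := by omega
              have h11 : i ≠ l := by
                rintro rfl
                omega
              have h12 := S.hcop i l h11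
              rw [h10] at h12
              have := Nat.coprime_self (a l) |>.1 h12
              omega
          have h8 : T ^ a l = ∏ i, (T ^ a i) ^ m i := by
            rw [← hw, ← Finset.prod_pow_eq_pow_sum]
            exact Finset.prod_congr rfl fun i _ => by rw [← pow_mul, mul_comm]
          rw [h8, ← Finset.prod_mul_distrib]
          refine Finset.prod_congr rfl fun i _ => ?_
          by_cases hi : m i = 0
          · rw [hi, pow_zero, pow_zero, pow_zero, mul_one]
          · rw [ih (a i) (hl ▸ h7 i hi) i rfl, mul_pow])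
        rw [prod_single, prod_single, pow_one, pow_one] at h6
        exact h6
  exact fun l => key (a l) l rfl

/-- monomials -/
theorem RelG.mono (H : RelG a e f v y) (m : Fin N → ℕ) (hm : ∑ k, m k * a k = e) :
    ∏ k, y k ^ m k = ∏ k, (algebraMap ℂ B (v k)) ^ m k := by
  have h1 : IsWeightedHomogeneous a
      (monomial (Finsupp.equivFunOnFinite.symm m) (1 : ℂ)) e := by
    refine isWeightedHomogeneous_monomial _ _ _ ?_
    rw [Pool.Agent.R920.WC.weight_eq]
    simpa using hm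
  have h2 := H.hs _ h1
  rw [aeval_monomial, map_one, one_mul, eval_monomial, one_mul,
    Finsupp.prod_fintype _ _ (fun i => pow_zero _), Finsupp.prod_fintype _ _ (fun i => pow_zero _),
    map_prod] at h2
  simpa using h2

theorem prod_zero_ext {M : Type*} [CommMonoid M] (C : Finset (Fin N)) (r : Fin N → M)
    (m : Fin N → ℕ) : ∏ k, r k ^ (if k ∈ C then m k else 0) = ∏ k ∈ C, r k ^ m k := by
  rw [← Finset.prod_subset (Finset.subset_univ C)]
  · exact Finset.prod_congr rfl fun k hk => by rw [if_pos hk]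
  · intro k _ hk
    rw [if_neg hk, pow_zero]

theorem sum_zero_ext (C : Finset (Fin N)) (a : Fin N → ℕ) (m : Fin N → ℕ) :
    ∑ k, (if k ∈ C then m k else 0) * a k = ∑ k ∈ C, m k * a k := by
  rw [← Finset.sum_subset (Finset.subset_univ C)]
  · exact Finset.sum_congr rfl fun k hk => by rw [if_pos hk]
  · intro k _ hk
    rw [if_neg hk, zero_mul]

theorem RelG.mono_on (H : RelG a e f v y) (C : Finset (Fin N)) (m : Fin N → ℕ)
    (hm : ∑ k ∈ C, m k * a k = e) :
    ∏ k ∈ C, y k ^ m k = ∏ k ∈ C, (algebraMap ℂ B (v k)) ^ m k := by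
  have h1 := H.mono (fun k => if k ∈ C then m k else 0) (by rw [sum_zero_ext, hm])
  rwa [prod_zero_ext, prod_zero_ext] at h1

/-- a monomial with an additional factor -/
theorem RelG.mono_add (H : RelG a e f v y) (C : Finset (Fin N)) (m : Fin N → ℕ) (l : Fin N)
    (hm : ∑ k ∈ C, m k * a k + a l = e) :
    (∏ k ∈ C, y k ^ m k) * y l =
      (∏ k ∈ C, (algebraMap ℂ B (v k)) ^ m k) * algebraMap ℂ B (v l) := by
  have h1 := H.mono (fun k => (if k ∈ C then m k else 0) + if k = l then 1 else 0) (by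
    rw [sum_add_single Finset.univ a _ (Finset.mem_univ l), sum_zero_ext, one_mul, hm])
  rwa [prod_add_single _ _ _ (Finset.mem_univ l), prod_add_single _ _ _ (Finset.mem_univ l),
    prod_zero_ext, prod_zero_ext, pow_one, pow_one] at h1

theorem SysG.epos (S : SysG a d e f J L) : 1 ≤ e := by
  have := S.hE
  omega

theorem SysG.Lpos (S : SysG a d e f J L) {i : Fin N} (hi : 1 < a i) : 1 ≤ L i := by
  have h1 := (S.hJ i hi).1
  have h2 := S.hd (J i)
  by_contra hcon
  have : L i = 0 := by omega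
  rw [this, zero_mul] at h1
  omega

/-- nonlinear coordinates outside of a set of variables are small compared to `e` -/
theorem SysG.room (S : SysG a d e f J L) (C : Finset (Fin N)) {l : Fin N} (hl : l ∉ C)
    (hlin : ¬ (1 < a l ∧ d (J l) = a l)) : a l + ∑ i ∈ C, (L i - 1) * a i ≤ e := by
  classical
  have h1 : (L l - 1) * a l + ∑ i ∈ C, (L i - 1) * a i ≤ ∑ i, (L i - 1) * a i := by
    rw [← Finset.sum_insert (f := fun i => (L i - 1) * a i) hl]
    exact Finset.sum_le_sum_of_subset (Finset.subset_univ _)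
  have h2 := S.hE
  by_cases hal : 1 < a l
  · have h3 : 2 ≤ L l := by
      by_contra hcon
      have h4 := S.Lpos hal
      have h5 : L l = 1 := by omega
      refine hlin ⟨hal, ?_⟩
      rw [← (S.hJ l hal).1, h5, one_mul]
    have h4 : 1 * a l ≤ (L l - 1) * a l := Nat.mul_le_mul_right _ (by omega)
    omega
  · omega

/-- a nonzero coordinate of weight one -/
theorem RelG.one (S : SysG a d e f J L) (H : RelG a e f v y) {i : Fin N} (hi : v i ≠ 0)
    (hai : a i = 1) : ∃ T : Bˣ, ∀ l, y l = (T : B) ^ a l * algebraMap ℂ B (v l) := by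
  classical
  have he := S.epos
  have h1 := H.mono_on {i} (fun _ => e) (by simp [hai])
  simp only [Finset.prod_singleton] at h1
  have hyi : IsUnit (y i) := by
    have h2 : IsUnit (y i ^ e) := by rw [h1]; exact (unitV hi).pow e
    exact (isUnit_pow_iff (by omega)).1 h2
  obtain ⟨X, hX⟩ := exists_ratio hi hyi
  have hXe : (X : B) ^ e = 1 := by
    rw [hX, mul_pow] at h1
    exact ((unitV hi).pow e).mul_right_cancel (by rw [h1, one_mul])
  refine ⟨X, finishG S H X fun l => ?_⟩
  by_cases hlin : 1 < a l ∧ d (J l) = a l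
  · exact Or.inr hlin
  left
  have h2 := S.room ∅ (Finset.notMem_empty l) hlin
  rw [Finset.sum_empty, add_zero] at h2
  have h3 := H.mono_add {i} (fun _ => e - a l) l (by simp [hai]; omega)
  simp only [Finset.prod_singleton] at h3
  rw [hX, mul_pow] at h3
  have h4 : (algebraMap ℂ B (v i)) ^ (e - a l) * ((X : B) ^ (e - a l) * y l) =
      (algebraMap ℂ B (v i)) ^ (e - a l) * algebraMap ℂ B (v l) := by
    rw [← h3]; ring
  have h5 := ((unitV hi).pow _).mul_left_cancel h4
  rw [← h5, ← mul_assoc, ← pow_add, Nat.add_sub_cancel' h2, hXe, one_mul]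

/-- the main theorem: the values of the sections of degree `e` determine the point -/
theorem RelG.main (S : SysG a d e f J L) (H : RelG a e f v y) (hv : v ≠ 0) :
    ∃ T : Bˣ, ∀ l, y l = (T : B) ^ a l * algebraMap ℂ B (v l) := by
  classical
  by_cases hw1 : ∃ i, v i ≠ 0 ∧ a i = 1
  · obtain ⟨i, hi, hai⟩ := hw1
    exact H.one S hi hai
  push Not at hw1
  have hone : ∀ i, v i ≠ 0 → 1 < a i := fun i hi => by
    have h1 := hw1 i hi
    have h2 := S.ha i
    omega
  set I : Finset (Fin N) := Finset.univ.filter fun i => v i ≠ 0 with hI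
  have hmemI : ∀ i, i ∈ I ↔ v i ≠ 0 := fun i => by simp [hI]
  have hIne : I.Nonempty := by
    by_contra h
    rw [Finset.not_nonempty_iff_eq_empty] at h
    refine hv (funext fun i => ?_)
    by_contra hi
    have := (hmemI i).2 hi
    rw [h] at this
    exact absurd this (Finset.notMem_empty i)
  -- the relations
  have hrel : ∀ i, ∃ m : Fin N → ℕ, v i ≠ 0 → (∑ k ∈ I, m k * a k = L i * a i ∧
      (∀ k, k ∉ I → m k = 0) ∧ ∃ k, k ≠ i ∧ m k ≠ 0) := by
    intro i
    by_cases hi : v i ≠ 0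
    swap
    · exact ⟨fun _ => 0, fun h => absurd h hi⟩
    obtain ⟨h1, h2⟩ := S.hJ i (hone i hi)
    obtain ⟨m, hm, hne, hm0⟩ := Pool.Agent.R920.WC.exists_other (f (J i)) v (H.hfv _)
      (mem_support_iff.2 h2) (by
      intro x hx
      have : x ≠ i := fun h => hi (h ▸ hx)
      rw [Finsupp.single_eq_of_ne this])
    have hm0' : ∀ k, k ∉ I → m k = 0 := fun k hk => hm0 k (by
      by_contra h
      exact hk ((hmemI k).2 h))
    have hwt := S.hf (J i) (mem_support_iff.1 hm)
    rw [Pool.Agent.R920.WC.weight_eq] at hwt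
    refine ⟨m, fun _ => ⟨?_, hm0', ?_⟩⟩
    · rw [h1, ← hwt]
      exact Finset.sum_subset (Finset.subset_univ _) fun k _ hk => by rw [hm0' k hk, zero_mul]
    · by_contra hcon
      push Not at hcon
      rw [Finset.sum_eq_single_of_mem i (Finset.mem_univ _)
        (fun k _ hk => by rw [hcon k hk, zero_mul]), ← h1] at hwt
      have h5 : m i = L i := Nat.eq_of_mul_eq_mul_right (S.ha i) hwt
      refine hne ?_
      ext k
      by_cases hk : k = i
      · subst hk
        rw [h5]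
        simp
      · rw [hcon k hk, Finsupp.single_eq_of_ne hk]
  choose M hM using hrel
  have hMsum : ∀ i ∈ I, ∑ k ∈ I, M i k * a k = L i * a i := fun i hi =>
    (hM i ((hmemI i).1 hi)).1
  have hM0 : ∀ i ∈ I, ∀ k, k ∉ I → M i k = 0 := fun i hi => (hM i ((hmemI i).1 hi)).2.1
  have hMne : ∀ i ∈ I, ∃ k, k ≠ i ∧ M i k ≠ 0 := fun i hi => (hM i ((hmemI i).1 hi)).2.2
  have hapos : ∀ i ∈ I, 0 < a i := fun i _ => S.ha i
  have hbudget : ∀ C : Finset (Fin N), ∀ i₀, ∑ i ∈ C.erase i₀, (L i - 1) * a i < e + a i₀ := by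
    intro C i₀
    have h1 : ∑ i ∈ C.erase i₀, (L i - 1) * a i ≤ ∑ i, (L i - 1) * a i :=
      Finset.sum_le_sum_of_subset (Finset.subset_univ _)
    have := S.hE
    omega
  -- two elements of a closed set
  have htwo : ∀ C ⊆ I, C.Nonempty → (∀ i ∈ C, ∀ k, k ∉ C → M i k = 0) →
      ∃ i₀ ∈ C, ∃ i₁ ∈ C, i₁ ≠ i₀ := by
    intro C hC hne hcl
    obtain ⟨i₀, hi₀⟩ := hne
    obtain ⟨k, hk, hk'⟩ := hMne i₀ (hC hi₀)
    refine ⟨i₀, hi₀, k, ?_, hk⟩
    by_contra h
    exact hk' (hcl i₀ hi₀ k h)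
  have hMC : ∀ C ⊆ I, (∀ i ∈ C, ∀ k, k ∉ C → M i k = 0) →
      ∀ i ∈ C, ∑ k ∈ C, M i k * a k = L i * a i := by
    intro C hC hcl i hi
    rw [← hMsum i (hC hi)]
    exact Finset.sum_subset hC fun k _ hk => by rw [hcl i hi k hk, zero_mul]
  -- combinations of large degree on a minimal closed set
  have hlarge : ∀ C ⊆ I, (∀ i ∈ C, ∀ k, k ∉ C → M i k = 0) →
      (∀ U ⊆ C, U.Nonempty → U ≠ C → ∃ i ∈ U, ∃ k ∈ C, k ∉ U ∧ M i k ≠ 0) →
      ∀ i₀ ∈ C, ∀ i₁ ∈ C, i₁ ≠ i₀ → ∀ e' : ℕ, ∑ i ∈ C, (L i - 1) * a i ≤ e' →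
      ∃ m : Fin N → ℕ, ∑ k ∈ C, m k * a k = e' := by
    intro C hC hcl hmin i₀ hi₀ i₁ hi₁ hne e' he'
    refine Pool.Agent.R920.WC.mem_of_large (fun i _ => S.ha i) (hMC C hC hcl) hmin hi₀ hi₁
      (S.hcop i₁ i₀ hne) ?_
    have h1 : ∑ i ∈ C.erase i₀, (L i - 1) * a i ≤ ∑ i ∈ C, (L i - 1) * a i :=
      Finset.sum_le_sum_of_subset (Finset.erase_subset _ _)
    have := S.ha i₀
    omega
  have hCe : ∀ C : Finset (Fin N), ∑ i ∈ C, (L i - 1) * a i ≤ e := by
    intro C
    have h1 : ∑ i ∈ C, (L i - 1) * a i ≤ ∑ i, (L i - 1) * a i :=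
      Finset.sum_le_sum_of_subset (Finset.subset_univ _)
    have := S.hE
    omega
  -- a combination of degree `e`
  obtain ⟨m₀, hm₀⟩ : ∃ m₀ : Fin N → ℕ, ∑ k ∈ I, m₀ k * a k = e := by
    obtain ⟨C, hCI, hCne, hCcl, hCmin⟩ := exists_min_closed hIne hM0
    obtain ⟨i₀, hi₀, i₁, hi₁, hne⟩ := htwo C hCI hCne hCcl
    obtain ⟨m, hm⟩ := hlarge C hCI hCcl hCmin i₀ hi₀ i₁ hi₁ hne e (hCe C)
    refine ⟨fun k => if k ∈ C then m k else 0, ?_⟩
    rw [← hm, ← Finset.sum_subset hCI]
    · exact Finset.sum_congr rfl fun k hk => by simp only [if_pos hk]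
    · intro k _ hk
      simp only [if_neg hk, zero_mul]
  -- a closed set of firing indices
  obtain ⟨C₀, hC₀I, hC₀ne, hC₀cl, hfire⟩ := exists_closed hapos hMsum (by
    have h1 : ∑ i ∈ I, (L i - 1) * a i ≤ ∑ i, (L i - 1) * a i :=
      Finset.sum_le_sum_of_subset (Finset.subset_univ _)
    have := S.hE
    omega) hm₀
  obtain ⟨C, hCC₀, hCne, hCcl, hCmin⟩ := exists_min_closed hC₀ne (fun i hi k hk => by
    by_cases hkI : k ∈ I
    · exact hC₀cl i hi k hkI hk
    · exact hM0 i (hC₀I hi) k hkI)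
  have hCI := hCC₀.trans hC₀I
  obtain ⟨i₀, hi₀, i₁, hi₁, hne⟩ := htwo C hCI hCne hCcl
  -- units
  have hvunit : ∀ D ⊆ I, ∀ m : Fin N → ℕ, IsUnit (∏ k ∈ D, (algebraMap ℂ B (v k)) ^ m k) := by
    intro D hD m
    refine Finset.prod_induction _ IsUnit (fun _ _ h h' => h.mul h') isUnit_one ?_
    intro k hk
    exact (unitV ((hmemI k).1 (hD hk))).pow _
  have hunit : ∀ i ∈ C, IsUnit (y i) := by
    intro i hi
    obtain ⟨m, hm, hlm⟩ := hfire i (hCC₀ hi)
    have hi' := (hmemI i).1 (hCI hi)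
    have hL := S.Lpos (hone i hi')
    have h1 := H.mono_on I m hm
    have h2 : IsUnit (∏ k ∈ I, y k ^ m k) := by
      rw [h1]
      exact hvunit I (Finset.Subset.refl _) m
    refine isUnit_of_dvd_unit ?_ h2
    exact (dvd_pow_self _ (by omega)).trans
      (Finset.dvd_prod_of_mem (fun k => y k ^ m k) (hCI hi))
  have hratio : ∀ i, ∃ X : Bˣ, i ∈ C → y i = X * algebraMap ℂ B (v i) := by
    intro i
    by_cases hi : i ∈ C
    · obtain ⟨X, hX⟩ := exists_ratio ((hmemI i).1 (hCI hi)) (hunit i hi)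
      exact ⟨X, fun _ => hX⟩
    · exact ⟨1, fun h => absurd h hi⟩
  choose r hr using hratio
  have hyr : ∀ m : Fin N → ℕ, ∏ k ∈ C, y k ^ m k =
      ((∏ k ∈ C, r k ^ m k : Bˣ) : B) * ∏ k ∈ C, (algebraMap ℂ B (v k)) ^ m k := by
    intro m
    push_cast
    rw [← Finset.prod_mul_distrib]
    exact Finset.prod_congr rfl fun k hk => by rw [hr k hk, mul_pow]
  -- the relations hold for the ratios
  have hrrel : ∀ i ∈ C, ∏ k ∈ C, r k ^ M i k = r i ^ L i := by
    intro i hi
    obtain ⟨m, hm, hlm⟩ := hfire i (hCC₀ hi)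
    set m' : Fin N → ℕ := fun k => if k = i then m k - L i else m k with hm'
    have hmm : ∀ k, m k = m' k + if k = i then L i else 0 := by
      intro k
      by_cases hk : k = i
      · subst hk
        simp only [hm', if_true]
        omega
      · simp only [hm', hk, if_false, add_zero]
    have h0 : ∑ k ∈ I, m' k * a k + L i * a i = e := by
      rw [← sum_add_single I a m' (hCI hi), ← hm]
      exact Finset.sum_congr rfl fun k _ => by rw [hmm k]
    have h1 := H.mono_on I (fun k => m' k + if k = i then L i else 0) (by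
      rw [sum_add_single I a m' (hCI hi), h0])
    rw [prod_add_single I y m' (hCI hi), prod_add_single I _ m' (hCI hi), hr i hi, mul_pow,
      ← mul_assoc] at h1
    have h2 := H.mono_on I (fun k => m' k + M i k) (by
      simp only [add_mul, Finset.sum_add_distrib]
      rw [hMsum i (hCI hi), h0])
    simp only [pow_add, Finset.prod_mul_distrib] at h2
    have h3 : ∀ z : Fin N → B, ∏ k ∈ I, z k ^ M i k = ∏ k ∈ C, z k ^ M i k := fun z =>
      (Finset.prod_subset hCI fun k _ hk => by rw [hCcl i hi k hk, pow_zero]).symm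
    rw [h3, h3, hyr, ← mul_assoc] at h2
    have h4 := ((unitV (B := B) ((hmemI i).1 (hCI hi))).pow (L i)).mul_right_cancel h1
    have h5 := (hvunit C hCI (M i)).mul_right_cancel h2
    have h6 : IsUnit (∏ k ∈ I, y k ^ m' k) := by
      have h7 : IsUnit ((∏ k ∈ I, y k ^ m' k) * (r i : B) ^ L i) := by
        rw [h4]; exact hvunit I (Finset.Subset.refl _) m'
      exact isUnit_of_mul_isUnit_left h7
    have h8 := h6.mul_left_cancel (h5.trans h4.symm)
    ext
    rw [h8]
    push_cast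
    rfl
  have hrc : ∀ m : Fin N → ℕ, ∑ k ∈ C, m k * a k = e → ∏ k ∈ C, r k ^ m k = 1 := by
    intro m hm
    have h1 := H.mono_on C m hm
    rw [hyr] at h1
    have h2 := (hvunit C hCI m).mul_right_cancel (h1.trans (one_mul _).symm)
    exact Units.ext h2
  obtain ⟨T, hT⟩ := rank_one r (fun i _ => S.ha i) (hMC C hCI hCcl) hrrel hCmin hi₀ hi₁
    (S.hcop i₁ i₀ hne) (hbudget C i₀) hrc
  have hTm : ∀ m : Fin N → ℕ, ∏ k ∈ C, r k ^ m k = T ^ ∑ k ∈ C, m k * a k := by
    intro m
    rw [← Finset.prod_pow_eq_pow_sum]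
    exact Finset.prod_congr rfl fun k hk => by rw [hT k hk, ← pow_mul, mul_comm]
  have hTe : T ^ e = 1 := by
    obtain ⟨m, hm⟩ := hlarge C hCI hCcl hCmin i₀ hi₀ i₁ hi₁ hne e (hCe C)
    rw [← hrc m hm, hTm, hm]
  refine ⟨T, finishG S H T fun l => ?_⟩
  by_cases hl : l ∈ C
  · left
    rw [hr l hl, hT l hl]
    push_cast
    rfl
  by_cases hlin : 1 < a l ∧ d (J l) = a l
  · exact Or.inr hlin
  left
  have hroom := S.room C hl hlin
  obtain ⟨m, hm⟩ := hlarge C hCI hCcl hCmin i₀ hi₀ i₁ hi₁ hne (e - a l) (by omega)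
  have h1 := H.mono_add C m l (by omega)
  rw [hyr, hTm, hm] at h1
  have h2 : (∏ k ∈ C, (algebraMap ℂ B (v k)) ^ m k) * (((T ^ (e - a l) : Bˣ) : B) * y l) =
      (∏ k ∈ C, (algebraMap ℂ B (v k)) ^ m k) * algebraMap ℂ B (v l) := by
    rw [← h1]; ring
  have h3 := (hvunit C hCI m).mul_left_cancel h2
  rw [← h3, ← mul_assoc]
  have h4 : (T : B) ^ a l * ((T ^ (e - a l) : Bˣ) : B) = 1 := by
    rw [← Units.val_pow_eq_pow_val, ← Units.val_mul, ← pow_add, Nat.add_sub_cancel' (by omega),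
      hTe, Units.val_one]
  rw [h4, one_mul]

/-- points are separated -/
theorem pointsG (S : SysG a d e f J L)
    (hb : ∀ v : Fin N → ℂ, v ≠ 0 → (∀ j, eval v (f j) = 0) →
      ∃ s : MvPolynomial (Fin N) ℂ, IsWeightedHomogeneous a s e ∧ eval v s ≠ 0)
    (v w : Fin N → ℂ) (hv : v ≠ 0) (hw : w ≠ 0) (hfv : ∀ j, eval v (f j) = 0)
    (hfw : ∀ j, eval w (f j) = 0)
    (hsec : ∀ s : MvPolynomial (Fin N) ℂ, IsWeightedHomogeneous a s e → eval v s = 0 →
      eval w s = 0) : ∃ t : ℂ, t ≠ 0 ∧ ∀ i, w i = t ^ a i * v i := by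
  obtain ⟨c, hc⟩ := prop_sections (a := a) (e := e) (v := v) (fun s => eval w s)
    (fun s t => by simp) (fun c s _ => by simp) (hb v hv hfv) hsec
  have hc0 : c ≠ 0 := by
    rintro rfl
    obtain ⟨s, h1, h2⟩ := hb w hw hfw
    exact h2 (by rw [hc s h1, zero_mul])
  obtain ⟨μ, hμ⟩ := IsAlgClosed.exists_pow_nat_eq c (show 0 < e from S.epos)
  have hμ0 : μ ≠ 0 := by
    rintro rfl
    rw [zero_pow (by have := S.epos; omega)] at hμ
    exact hc0 hμ.symm
  set w' : Fin N → ℂ := fun i => μ⁻¹ ^ a i * w i with hw'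
  have hww : ∀ i, w i = μ ^ a i * w' i := by
    intro i
    rw [hw']
    simp only
    rw [← mul_assoc, ← mul_pow, mul_inv_cancel₀ hμ0, one_pow, one_mul]
  have hs : ∀ s, IsWeightedHomogeneous a s e → eval w' s = eval v s := by
    intro s hs
    rw [hw', eval_scale a w μ⁻¹ hs, hc s hs, ← hμ, ← mul_assoc, ← mul_pow, inv_mul_cancel₀ hμ0,
      one_pow, one_mul]
  have hfw' : ∀ j, eval w' (f j) = 0 := by
    intro j
    rw [hw', eval_scale a w μ⁻¹ (S.hf j), hfw, mul_zero]
  have H1 : RelG (B := ℂ) a e f v w' := ⟨fun s h => by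
    rw [← hs s h]; simp [aeval_eq_eval], hfv, fun j => by rw [aeval_eq_eval]; exact hfw' j⟩
  obtain ⟨T, hT⟩ := H1.main S hv
  refine ⟨μ * T, mul_ne_zero hμ0 T.ne_zero, fun i => ?_⟩
  rw [hww, hT, mul_pow, mul_assoc]
  rfl

/-- tangent vectors are separated -/
theorem tangentsG (S : SysG a d e f J L)
    (hb : ∀ v : Fin N → ℂ, v ≠ 0 → (∀ j, eval v (f j) = 0) →
      ∃ s : MvPolynomial (Fin N) ℂ, IsWeightedHomogeneous a s e ∧ eval v s ≠ 0)
    (v u : Fin N → ℂ) (hv : v ≠ 0) (hfv : ∀ j, eval v (f j) = 0)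
    (hfu : ∀ j, dd v u (f j) = 0)
    (hsec : ∀ s : MvPolynomial (Fin N) ℂ, IsWeightedHomogeneous a s e → eval v s = 0 →
      dd v u s = 0) : ∃ τ : ℂ, ∀ i, u i = τ * (a i * v i) := by
  obtain ⟨c, hc⟩ := prop_sections (a := a) (e := e) (v := v) (fun s => dd v u s)
    (fun s t => dd_sub v u s t) (fun c s _ => dd_smul v u c s) (hb v hv hfv) hsec
  have he : (e : ℂ) ≠ 0 := by
    have := S.epos
    exact_mod_cast (by omega : e ≠ 0)
  set τ : ℂ := c / e with hτ
  set u' : Fin N → ℂ := fun i => u i - τ * (a i * v i) with hu'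
  have hdd : ∀ s, dd v u' s = dd v u s - τ * dd v (fun i => a i * v i) s := by
    intro s
    rw [hu', dd_sub_dir v u (fun i => τ * (a i * v i)) s, dd_smul_dir]
  set y : Fin N → TrivSqZeroExt ℂ ℂ :=
    fun i => TrivSqZeroExt.inl (v i) + TrivSqZeroExt.inr (u' i) with hy
  have H : RelG a e f v y := by
    refine ⟨fun s hs => ?_, hfv, fun j => ?_⟩
    · rw [hy, aeval_dual, hdd, dd_euler a v hs, hc s hs, hτ]
      have : c * eval v s - c / e * (e * eval v s) = 0 := by field_simp; ring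
      rw [this, TrivSqZeroExt.inr_zero, add_zero]
      rfl
    · rw [hy, aeval_dual, hdd, dd_euler a v (S.hf j), hfv, hfu, mul_zero, mul_zero, sub_zero,
        TrivSqZeroExt.inl_zero, TrivSqZeroExt.inr_zero, add_zero]
  obtain ⟨T, hT⟩ := H.main S hv
  have hT0 : (T : TrivSqZeroExt ℂ ℂ).fst ≠ 0 := by
    have := (TrivSqZeroExt.isUnit_iff_isUnit_fst.1 T.isUnit)
    exact this.ne_zero
  set t0 := (T : TrivSqZeroExt ℂ ℂ).fst
  set t1 := (T : TrivSqZeroExt ℂ ℂ).snd
  refine ⟨τ + t1 / t0, fun i => ?_⟩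
  have h1 := congrArg TrivSqZeroExt.fst (hT i)
  have h2 := congrArg TrivSqZeroExt.snd (hT i)
  have hal : algebraMap ℂ (TrivSqZeroExt ℂ ℂ) (v i) = TrivSqZeroExt.inl (v i) := rfl
  rw [hal] at h1 h2
  simp only [hy, TrivSqZeroExt.fst_add, TrivSqZeroExt.fst_inl, TrivSqZeroExt.fst_inr, add_zero,
    TrivSqZeroExt.fst_mul, TrivSqZeroExt.fst_pow] at h1
  simp only [hy, TrivSqZeroExt.snd_add, TrivSqZeroExt.snd_inl, TrivSqZeroExt.snd_inr, zero_add,
    TrivSqZeroExt.snd_mul, TrivSqZeroExt.snd_pow, TrivSqZeroExt.fst_inl,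
    MulOpposite.smul_eq_mul_unop, MulOpposite.unop_op, smul_eq_mul, nsmul_eq_mul] at h2
  have h3 : u' i = t1 / t0 * (a i * v i) := by
    rw [h2]
    rcases Nat.eq_zero_or_pos (a i) with h | h
    · have := S.ha i; omega
    obtain ⟨b, hb⟩ : ∃ b, a i = b + 1 := ⟨a i - 1, by omega⟩
    change v i = t0 ^ a i * v i at h1
    rw [hb] at h1 ⊢
    rw [mul_zero, zero_add, Nat.pred_succ]
    change ((b + 1 : ℕ) : ℂ) * (t0 ^ b * t1) * v i = _
    have h4 : t1 / t0 * (((b + 1 : ℕ) : ℂ) * v i) =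
        t1 / t0 * (((b + 1 : ℕ) : ℂ) * (t0 ^ (b + 1) * v i)) := by rw [← h1]
    rw [h4]
    field_simp
    ring
  rw [hu'] at h3
  simp only at h3
  rw [add_mul, ← h3]
  ring

end Pool.Agent.K3h16.FU
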