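import Pool.Agent.K3h16.FU.Fire
import Pool.Agent.H61.Fu.Alg

/-!
# On a minimal closed set the relations have rank one
-/

set_option autoImplicit false

namespace Pool.Agent.K3h16.FU

variable {ι : Type*} [DecidableEq ι] {G : Type*} [CommGroup G]

theorem sum_add_single (C : Finset ι) (a m : ι → ℕ) {i : ι} (hi : i ∈ C) (t : ℕ) :
    ∑ k ∈ C, (m k + if k = i then t else 0) * a k = ∑ k ∈ C, m k * a k + t * a i := by
  simp only [add_mul, Finset.sum_add_distrib, ite_mul, zero_mul, Finset.sum_ite_eq', if_pos hi]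

theorem prod_add_single {M : Type*} [CommMonoid M] (C : Finset ι) (r : ι → M) (m : ι → ℕ) {i : ι}
    (hi : i ∈ C) (t : ℕ) :
    ∏ k ∈ C, r k ^ (m k + if k = i then t else 0) = (∏ k ∈ C, r k ^ m k) * r i ^ t := by
  simp only [pow_add, Finset.prod_mul_distrib]
  congr 1
  rw [Finset.prod_eq_single_of_mem i hi (fun k _ hk => by rw [if_neg hk, pow_zero]), if_pos rfl]

theorem sum_single (C : Finset ι) (a : ι → ℕ) {i : ι} (hi : i ∈ C) (t : ℕ) :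
    ∑ k ∈ C, (if k = i then t else 0) * a k = t * a i := by
  simp only [ite_mul, zero_mul, Finset.sum_ite_eq', if_pos hi]

theorem prod_single' {M : Type*} [CommMonoid M] (C : Finset ι) (r : ι → M) {i : ι}
    (hi : i ∈ C) (t : ℕ) : ∏ k ∈ C, r k ^ (if k = i then t else 0) = r i ^ t := by
  rw [Finset.prod_eq_single_of_mem i hi (fun k _ hk => by rw [if_neg hk, pow_zero]), if_pos rfl]

/-- the value of a combination whose degree is `e` modulo `a i₀` -/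
theorem value_mod (r : ι → G) {a ℓ : ι → ℕ} {C : Finset ι} (ha : ∀ i ∈ C, 0 < a i)
    {M : ι → ι → ℕ} (hM : ∀ i ∈ C, ∑ k ∈ C, M i k * a k = ℓ i * a i)
    (hr : ∀ i ∈ C, ∏ k ∈ C, r k ^ M i k = r i ^ ℓ i)
    (hmin : ∀ U ⊆ C, U.Nonempty → U ≠ C → ∃ i ∈ U, ∃ k ∈ C, k ∉ U ∧ M i k ≠ 0)
    {i₀ : ι} (hi₀ : i₀ ∈ C) {e : ℕ}
    (he : ∑ i ∈ C.erase i₀, (ℓ i - 1) * a i < e + a i₀) {c : G}
    (hc : ∀ m : ι → ℕ, ∑ k ∈ C, m k * a k = e → ∏ k ∈ C, r k ^ m k = c)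
    (m : ι → ℕ) (y : ℕ) (hm : ∑ k ∈ C, m k * a k = e + y * a i₀) :
    ∏ k ∈ C, r k ^ m k = c * r i₀ ^ y := by
  obtain ⟨m₁, h1, h2, h3⟩ := exists_reduced r (Z := {i₀}) (Finset.singleton_subset_iff.2 hi₀) ha hM
    (fun i hi => hr i (Finset.mem_sdiff.1 hi).1)
    (fun U hU hne => hmin U (hU.trans Finset.sdiff_subset) hne (by
      rintro rfl
      exact (Finset.mem_sdiff.1 (hU hi₀)).2 (Finset.mem_singleton_self _))) m
  rw [hm] at h1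
  rw [← h2]
  have ha0 := ha i₀ hi₀
  have h4 : ∑ k ∈ C.erase i₀, m₁ k * a k ≤ ∑ i ∈ C.erase i₀, (ℓ i - 1) * a i := by
    refine Finset.sum_le_sum fun i hi => Nat.mul_le_mul_right _ ?_
    have := h3 i (Finset.mem_sdiff.2 ⟨Finset.mem_of_mem_erase hi, fun h =>
      Finset.ne_of_mem_erase hi (Finset.mem_singleton.1 h)⟩)
    omega
  have h5 : m₁ i₀ * a i₀ + ∑ k ∈ C.erase i₀, m₁ k * a k = e + y * a i₀ := by
    rw [← h1]
    exact Finset.add_sum_erase C (fun k => m₁ k * a k) hi₀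
  have h6 : y ≤ m₁ i₀ := by
    by_contra hcon
    push Not at hcon
    have h7 : (m₁ i₀ + 1) * a i₀ ≤ y * a i₀ := Nat.mul_le_mul_right _ hcon
    rw [add_mul, one_mul] at h7
    omega
  obtain ⟨u, hu⟩ := Nat.exists_eq_add_of_le h6
  have h7 : u * a i₀ + ∑ k ∈ C.erase i₀, m₁ k * a k = e := by
    rw [hu, add_mul] at h5
    omega
  have h8 := hc (fun k => if k = i₀ then u else m₁ k) (by
    rw [← Finset.add_sum_erase _ _ hi₀, if_pos rfl, ← h7]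
    congr 1
    exact Finset.sum_congr rfl fun k hk => by rw [if_neg (Finset.ne_of_mem_erase hk)])
  rw [← Finset.mul_prod_erase _ _ hi₀, if_pos rfl] at h8
  rw [← Finset.mul_prod_erase _ _ hi₀, hu, ← h8, pow_add]
  have h9 : ∏ k ∈ C.erase i₀, r k ^ (if k = i₀ then u else m₁ k) =
      ∏ k ∈ C.erase i₀, r k ^ m₁ k :=
    Finset.prod_congr rfl fun k hk => by rw [if_neg (Finset.ne_of_mem_erase hk)]
  rw [h9]
  rw [mul_assoc, mul_comm (r i₀ ^ y)]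

/-- combinations of the same degree have the same value -/
theorem value_eq (r : ι → G) {a ℓ : ι → ℕ} {C : Finset ι} (ha : ∀ i ∈ C, 0 < a i)
    {M : ι → ι → ℕ} (hM : ∀ i ∈ C, ∑ k ∈ C, M i k * a k = ℓ i * a i)
    (hr : ∀ i ∈ C, ∏ k ∈ C, r k ^ M i k = r i ^ ℓ i)
    (hmin : ∀ U ⊆ C, U.Nonempty → U ≠ C → ∃ i ∈ U, ∃ k ∈ C, k ∉ U ∧ M i k ≠ 0)
    {i₀ i₁ : ι} (hi₀ : i₀ ∈ C) (hi₁ : i₁ ∈ C) (hcop : Nat.Coprime (a i₁) (a i₀)) {e : ℕ}
    (he : ∑ i ∈ C.erase i₀, (ℓ i - 1) * a i < e + a i₀) {c : G}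
    (hc : ∀ m : ι → ℕ, ∑ k ∈ C, m k * a k = e → ∏ k ∈ C, r k ^ m k = c)
    (α β : ι → ℕ) (hαβ : ∑ k ∈ C, α k * a k = ∑ k ∈ C, β k * a k) :
    ∏ k ∈ C, r k ^ α k = ∏ k ∈ C, r k ^ β k := by
  have ha0 := ha i₀ hi₀
  have ha1 := ha i₁ hi₁
  set D := ∑ k ∈ C, α k * a k with hD
  obtain ⟨t₀, ht₀⟩ : ∃ t : ℕ, a i₁ * t ≡ e + (a i₀ - 1) * D [MOD a i₀] := by
    obtain ⟨u, hu⟩ := Nat.exists_mul_mod_eq_of_coprime ((e + (a i₀ - 1) * D) % a i₀) hcop ha0.ne'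
    refine ⟨u, ?_⟩
    show a i₁ * u % a i₀ = _ % a i₀
    rw [hu.2, Nat.mod_mod]
  set t := t₀ + e * a i₀ with ht
  have h1 : D + t * a i₁ ≡ e [MOD a i₀] := by
    have h2 : D + t * a i₁ = D + a i₁ * t₀ + a i₀ * (e * a i₁) := by rw [ht]; ring
    rw [h2]
    have h3 : D + a i₁ * t₀ + a i₀ * (e * a i₁) ≡ D + a i₁ * t₀ [MOD a i₀] := by
      show _ % _ = _ % _
      rw [Nat.add_mul_mod_self_left]
    refine h3.trans ?_
    have h4 : D + a i₁ * t₀ ≡ D + (e + (a i₀ - 1) * D) [MOD a i₀] := Nat.ModEq.add_left _ ht₀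
    refine h4.trans ?_
    have h5 : D + (e + (a i₀ - 1) * D) = e + a i₀ * D := by
      obtain ⟨p, hp⟩ : ∃ p, a i₀ = p + 1 := ⟨a i₀ - 1, by omega⟩
      rw [hp, Nat.add_sub_cancel]; ring
    rw [h5]
    show _ % _ = _ % _
    rw [Nat.add_mul_mod_self_left]
  have h2 : e ≤ D + t * a i₁ := by
    have h3 : e * 1 * 1 ≤ e * a i₀ * a i₁ := Nat.mul_le_mul (Nat.mul_le_mul_left _ ha0) ha1
    have h4 : t * a i₁ = t₀ * a i₁ + e * a i₀ * a i₁ := by rw [ht]; ring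
    omega
  obtain ⟨y, hy⟩ := (Nat.modEq_iff_dvd' h2).1 h1.symm
  have h3 : D + t * a i₁ = e + y * a i₀ := by
    have : y * a i₀ = D + t * a i₁ - e := by rw [hy, mul_comm]
    omega
  have key : ∀ m : ι → ℕ, ∑ k ∈ C, m k * a k = D →
      (∏ k ∈ C, r k ^ m k) * r i₁ ^ t = c * r i₀ ^ y := by
    intro m hm
    rw [← prod_add_single C r m hi₁ t]
    refine value_mod r ha hM hr hmin hi₀ he hc _ y ?_
    rw [sum_add_single C a m hi₁ t, hm, h3]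
  have h4 := key α rfl
  rw [← key β hαβ.symm] at h4
  exact mul_right_cancel h4

/-- the ratios are the powers of a common root -/
theorem rank_one (r : ι → G) {a ℓ : ι → ℕ} {C : Finset ι} (ha : ∀ i ∈ C, 0 < a i)
    {M : ι → ι → ℕ} (hM : ∀ i ∈ C, ∑ k ∈ C, M i k * a k = ℓ i * a i)
    (hr : ∀ i ∈ C, ∏ k ∈ C, r k ^ M i k = r i ^ ℓ i)
    (hmin : ∀ U ⊆ C, U.Nonempty → U ≠ C → ∃ i ∈ U, ∃ k ∈ C, k ∉ U ∧ M i k ≠ 0)
    {i₀ i₁ : ι} (hi₀ : i₀ ∈ C) (hi₁ : i₁ ∈ C) (hcop : Nat.Coprime (a i₁) (a i₀)) {e : ℕ}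
    (he : ∑ i ∈ C.erase i₀, (ℓ i - 1) * a i < e + a i₀) {c : G}
    (hc : ∀ m : ι → ℕ, ∑ k ∈ C, m k * a k = e → ∏ k ∈ C, r k ^ m k = c) :
    ∃ T : G, ∀ l ∈ C, r l = T ^ a l := by
  have hval := value_eq r ha hM hr hmin hi₀ hi₁ hcop he hc
  have hpair : ∀ i ∈ C, ∀ k ∈ C, r i ^ a k = r k ^ a i := by
    intro i hi k hk
    have h1 := hval (fun x => if x = i then a k else 0) (fun x => if x = k then a i else 0) (by
      rw [sum_single C a hi, sum_single C a hk, mul_comm])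
    rwa [prod_single' C r hi, prod_single' C r hk] at h1
  obtain ⟨T, hT0, hT1⟩ := Pool.Agent.H61.Fu.root hcop.symm (hpair i₀ hi₀ i₁ hi₁)
  refine ⟨T, fun l hl => ?_⟩
  have key : ∀ i ∈ C, r i = T ^ a i → (r l * (T ^ a l)⁻¹) ^ a i = 1 := by
    intro i hi hTi
    rw [mul_pow, hpair l hl i hi, hTi, inv_pow, ← pow_mul, ← pow_mul, mul_comm (a i), mul_inv_cancel]
  have h1 := pow_gcd_eq_one.2 ⟨key i₁ hi₁ hT1, key i₀ hi₀ hT0⟩
  rw [hcop.gcd_eq_one, pow_one] at h1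
  exact mul_inv_eq_one.1 h1

end Pool.Agent.K3h16.FU
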